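import Pool.Agent.W688.HT.Fin
import Pool.Agent.W305.VC.Pot

/-!
# Z-BND, part A: monotonicity in `x` and `u` of the limit of the products
-/

set_option autoImplicit false

namespace Pool.Agent.TH511.Z361

open Filter Finset Topology MeasureTheory GapVol EvenVol EvenVol.LobIneq
open Pool.Agent.W711.HT
open Pool.Agent.W709.VC (ell Lf RR)
open Pool.Agent.W688.HT
open scoped Real

lemma ell_even (h t : ℝ) : ell h (-t) = ell h t := by
  unfold ell
  rw [Real.cos_neg]

lemma ell_intg {h : ℝ} (hh : 0 ≤ h) (a b : ℝ) : IntervalIntegrable (ell h) volume a b := by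
  rcases hh.eq_or_lt with h0 | h0
  · rw [← h0]
    exact ell0_int a b
  · exact ell_int h0 a b

lemma Lf_sub' {h : ℝ} (hh : 0 ≤ h) (x y : ℝ) : Lf h y - Lf h x = ∫ t in x..y, ell h t := by
  unfold Lf
  rw [intervalIntegral.integral_interval_sub_left (ell_intg hh _ _) (ell_intg hh _ _)]

lemma Lf_odd (h t : ℝ) : Lf h (-t) = -Lf h t := by
  unfold Lf
  have h1 := intervalIntegral.integral_comp_neg (a := 0) (b := t) (ell h)
  simp only [ell_even, neg_zero] at h1
  rw [h1, intervalIntegral.integral_symm]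

lemma Lf_at_zero (h : ℝ) : Lf h 0 = 0 := by
  unfold Lf
  exact intervalIntegral.integral_same

lemma Lf_cont {h : ℝ} (hh : 0 ≤ h) : Continuous (Lf h) :=
  intervalIntegral.continuous_primitive (fun a b => ell_intg hh a b) 0

/-- the real part of `r(u / 2 π, x + i h)` up to the factors `2 sin` -/
noncomputable def PP (h u x : ℝ) : ℝ := (Lf h (u - x) - Lf h (-u - x)) / (4 * π)

lemma PP_even (h u x : ℝ) : PP h u (-x) = PP h u x := by
  unfold PP
  have h1 : Lf h (u - -x) = -Lf h (-u - x) := by rw [← Lf_odd]; congr 1; ring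
  have h2 : Lf h (-u - -x) = -Lf h (u - x) := by rw [← Lf_odd]; congr 1; ring
  rw [h1, h2]
  ring

lemma PP_abs (h u x : ℝ) : PP h u |x| = PP h u x := by
  rcases abs_choice x with h1 | h1
  · rw [h1]
  · rw [h1]
    exact PP_even h u x

lemma PP_zero (h u : ℝ) : PP h u 0 = Lf h u / (2 * π) := by
  unfold PP
  have hπ := Real.pi_pos
  rw [sub_zero, sub_zero, Lf_odd]
  field_simp
  ring

lemma PP_cont {h : ℝ} (hh : 0 ≤ h) : Continuous (fun p : ℝ × ℝ => PP h p.1 p.2) := by
  unfold PP
  have := Lf_cont hh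
  fun_prop

lemma PP_diff {h : ℝ} (hh : 0 ≤ h) (u x : ℝ) :
    PP h u 0 - PP h u x = (∫ s in (0:ℝ)..x, (ell h (u - s) - ell h (u + s))) / (4 * π) := by
  have i1 : IntervalIntegrable (fun s => ell h (u - s)) volume 0 x := by
    have := (ell_intg hh (u - 0) (u - x)).comp_sub_left u
    simpa using this
  have i2 : IntervalIntegrable (fun s => ell h (u + s)) volume 0 x := by
    have := (ell_intg hh (u + 0) (u + x)).comp_add_left u
    simpa using this
  rw [intervalIntegral.integral_sub i1 i2, intervalIntegral.integral_comp_sub_left (ell h) u,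
    intervalIntegral.integral_comp_add_left (ell h) u, ← Lf_sub' hh, ← Lf_sub' hh]
  unfold PP
  have h2 : Lf h (-u - x) = -Lf h (u + x) := by rw [← Lf_odd]; congr 1; ring
  rw [h2, sub_zero, sub_zero, add_zero, Lf_odd]
  ring

lemma ell_gap {h u s : ℝ} (hu0 : 0 ≤ u) (hu1 : u ≤ π) (hs0 : 0 ≤ s) (hs1 : s ≤ π)
    (hp : 0 < 2 * Real.cosh h + 2 * Real.cos (u + s)) :
    2 * Real.sin u * Real.sin s / (Real.cosh h + 1) ≤ ell h (u - s) - ell h (u + s) := by
  have hsu := Real.sin_nonneg_of_nonneg_of_le_pi hu0 hu1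
  have hss := Real.sin_nonneg_of_nonneg_of_le_pi hs0 hs1
  have e : Real.cos (u - s) - Real.cos (u + s) = 2 * Real.sin u * Real.sin s := by
    rw [Real.cos_sub, Real.cos_add]; ring
  have hpr : 0 ≤ 2 * Real.sin u * Real.sin s := by positivity
  have hch := Real.one_le_cosh h
  have hc1 := Real.cos_le_one (u - s)
  set A := 2 * Real.cosh h + 2 * Real.cos (u - s) with hA
  set B := 2 * Real.cosh h + 2 * Real.cos (u + s) with hB
  have hAB : A - B = 2 * (2 * Real.sin u * Real.sin s) := by rw [hA, hB, ← e]; ring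
  have hA0 : 0 < A := by linarith
  have hA1 : A ≤ 2 * (Real.cosh h + 1) := by rw [hA]; linarith
  have e2 : ell h (u - s) - ell h (u + s) = -Real.log (B / A) := by
    unfold ell
    rw [← hA, ← hB, Real.log_div hp.ne' hA0.ne']
    ring
  rw [e2]
  have h5 := Real.log_le_sub_one_of_pos (div_pos hp hA0)
  have h6 : B / A - 1 = -((A - B) / A) := by field_simp; ring
  have h7 : 2 * Real.sin u * Real.sin s / (Real.cosh h + 1) ≤ (A - B) / A := by
    rw [hAB]
    have h8 : 2 * Real.sin u * Real.sin s / (Real.cosh h + 1) =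
        2 * (2 * Real.sin u * Real.sin s) / (2 * (Real.cosh h + 1)) := by
      rw [mul_div_mul_left _ _ two_ne_zero]
    rw [h8]
    exact div_le_div_of_nonneg_left (by positivity) hA0 hA1
  linarith

lemma PP_drop {h u x : ℝ} (hh : 0 ≤ h) (hu0 : 0 ≤ u) (hu1 : u ≤ π) (hx : |x| ≤ π) :
    Real.sin u * x ^ 2 / (π ^ 3 * (Real.cosh h + 1)) ≤ PP h u 0 - PP h u x := by
  have hπ := Real.pi_pos
  rw [← PP_abs h u x, ← sq_abs x]
  set y := |x| with hy
  have hy0 : 0 ≤ y := abs_nonneg x
  have hsu := Real.sin_nonneg_of_nonneg_of_le_pi hu0 hu1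
  have hch := Real.one_le_cosh h
  rw [PP_diff hh]
  have i1 : IntervalIntegrable (fun s => ell h (u - s)) volume 0 y := by
    have := (ell_intg hh (u - 0) (u - y)).comp_sub_left u
    simpa using this
  have i2 : IntervalIntegrable (fun s => ell h (u + s)) volume 0 y := by
    have := (ell_intg hh (u + 0) (u + y)).comp_add_left u
    simpa using this
  have i3 : IntervalIntegrable (fun s => 2 * Real.sin u * Real.sin s / (Real.cosh h + 1))
      volume 0 y := Continuous.intervalIntegrable (by fun_prop) _ _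
  have h1 : ∫ s in (0:ℝ)..y, 2 * Real.sin u * Real.sin s / (Real.cosh h + 1) ≤
      ∫ s in (0:ℝ)..y, (ell h (u - s) - ell h (u + s)) := by
    refine intervalIntegral.integral_mono_ae_restrict hy0 i3 (i1.sub i2) ?_
    have h2 : ∀ᵐ s : ℝ, Real.sin (u + s) ≠ 0 := ae_add u
    rw [Filter.EventuallyLE, ae_restrict_iff' measurableSet_Icc]
    filter_upwards [h2] with s hs hs'
    apply ell_gap hu0 hu1 hs'.1 (hs'.2.trans hx)
    have h3 := Real.neg_one_le_cos (u + s)
    rcases eq_or_lt_of_le h3 with h4 | h4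
    · exfalso
      apply hs
      have h5 := Real.sin_sq_add_cos_sq (u + s)
      rw [← h4] at h5
      have h6 : Real.sin (u + s) ^ 2 = 0 := by linarith
      exact pow_eq_zero_iff two_ne_zero |>.1 h6
    · linarith
  have h2 : ∫ s in (0:ℝ)..y, 2 * Real.sin u * Real.sin s / (Real.cosh h + 1) =
      2 * Real.sin u / (Real.cosh h + 1) * (1 - Real.cos y) := by
    have e : (fun s => 2 * Real.sin u * Real.sin s / (Real.cosh h + 1)) =
        fun s => (2 * Real.sin u / (Real.cosh h + 1)) * Real.sin s := by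
      funext s; ring
    rw [e, intervalIntegral.integral_const_mul, integral_sin, Real.cos_zero]
  have h3 := Real.cos_le_one_sub_mul_cos_sq (x := y) (by rw [hy, abs_abs]; exact hx)
  have h4 : Real.sin u * y ^ 2 / (π ^ 3 * (Real.cosh h + 1)) =
      2 * Real.sin u / (Real.cosh h + 1) * (2 / π ^ 2 * y ^ 2) / (4 * π) := by
    field_simp
    ring
  rw [h4]
  apply div_le_div_of_nonneg_right _ (by positivity)
  refine le_trans ?_ h1
  rw [h2]
  exact mul_le_mul_of_nonneg_left (by linarith) (by positivity)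

/-! ### the function of `u` -/

noncomputable def VV (h u : ℝ) : ℝ := (Lf 0 u + Lf h u + 8 * lob (u / 2)) / (2 * π)

noncomputable def KK (h t : ℝ) : ℝ := ell 0 t + ell h t + 4 * g (t / 2)

lemma gh2_int (a b : ℝ) : IntervalIntegrable (fun u => g (u / 2)) volume a b := by
  have h := (g_int (a / 2) (b / 2)).comp_mul_left (c := (1 / 2 : ℝ))
  convert h using 2
  · ring_nf
  · ring
  · ring

lemma KK_int {h : ℝ} (hh : 0 ≤ h) (a b : ℝ) : IntervalIntegrable (KK h) volume a b :=
  ((ell_intg le_rfl a b).add (ell_intg hh a b)).add ((gh2_int a b).const_mul 4)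

lemma VV_diff {h : ℝ} (hh : 0 ≤ h) (a b : ℝ) :
    VV h b - VV h a = (∫ t in a..b, KK h t) / (2 * π) := by
  unfold VV KK
  rw [intervalIntegral.integral_add ((ell_intg le_rfl a b).add (ell_intg hh a b))
    ((gh2_int a b).const_mul 4), intervalIntegral.integral_add (ell_intg le_rfl a b)
    (ell_intg hh a b), ← Lf_sub' hh, ← Lf_sub' le_rfl, intervalIntegral.integral_const_mul]
  have h1 : ∫ t in a..b, g (t / 2) = 2 * (lob (b / 2) - lob (a / 2)) := by
    have := intervalIntegral.integral_comp_div (a := a) (b := b) g (two_ne_zero (α := ℝ))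
    rw [this, ← lob_sub, smul_eq_mul]
  rw [h1]
  ring

/-- the critical value of `cos u` -/
noncomputable def c0 (h : ℝ) : ℝ := (1 - Real.cosh h) / (3 + Real.cosh h)

lemma c0_bd (h : ℝ) : -1 < c0 h ∧ c0 h ≤ 0 := by
  have h1 := Real.one_le_cosh h
  unfold c0
  constructor
  · rw [lt_div_iff₀ (by linarith)]
    linarith
  · apply div_nonpos_of_nonpos_of_nonneg <;> linarith

lemma KK_eq {h t : ℝ} (ht0 : 0 < t) (ht1 : t < π) :
    KK h t = Real.log ((1 + Real.cos t) * (Real.cosh h + Real.cos t)) -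
      Real.log ((1 - Real.cos t) ^ 2) := by
  have h1 := Real.one_le_cosh h
  have hc1 : -1 < Real.cos t := by
    rw [← Real.cos_pi]
    exact Real.cos_lt_cos_of_nonneg_of_le_pi ht0.le le_rfl ht1
  have hc2 : Real.cos t < 1 := by
    rw [← Real.cos_zero]
    exact Real.cos_lt_cos_of_nonneg_of_le_pi le_rfl ht1.le ht0
  have hs : 0 < Real.sin (t / 2) :=
    Real.sin_pos_of_pos_of_lt_pi (by linarith) (by linarith)
  have e1 : 1 - Real.cos t = 2 * Real.sin (t / 2) ^ 2 := by
    have h2 : Real.cos t = 2 * Real.cos (t / 2) ^ 2 - 1 := by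
      rw [← Real.cos_two_mul]; congr 1; ring
    have h3 := Real.sin_sq_add_cos_sq (t / 2)
    rw [h2]; linarith
  unfold KK ell g
  rw [Real.cosh_zero, e1]
  have p1 : 0 < 1 + Real.cos t := by linarith
  have p2 : 0 < Real.cosh h + Real.cos t := by linarith
  have e2 : 2 * 1 + 2 * Real.cos t = 2 * (1 + Real.cos t) := by ring
  have e3 : 2 * Real.cosh h + 2 * Real.cos t = 2 * (Real.cosh h + Real.cos t) := by ring
  rw [e2, e3, Real.log_mul two_ne_zero p1.ne', Real.log_mul two_ne_zero p2.ne',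
    Real.log_mul two_ne_zero hs.ne', Real.log_mul p1.ne' p2.ne', Real.log_pow,
    Real.log_mul two_ne_zero (pow_pos hs 2).ne', Real.log_pow]
  push_cast
  ring

lemma KK_pos {h t : ℝ} (ht0 : 0 < t) (ht1 : t < π) (hc : c0 h < Real.cos t) : 0 < KK h t := by
  have h1 := Real.one_le_cosh h
  have hc1 : -1 < Real.cos t := by
    rw [← Real.cos_pi]
    exact Real.cos_lt_cos_of_nonneg_of_le_pi ht0.le le_rfl ht1
  have hc2 : Real.cos t < 1 := by
    rw [← Real.cos_zero]
    exact Real.cos_lt_cos_of_nonneg_of_le_pi le_rfl ht1.le ht0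
  rw [KK_eq ht0 ht1, sub_pos]
  apply Real.log_lt_log (pow_pos (by linarith) 2)
  unfold c0 at hc
  rw [div_lt_iff₀ (by linarith)] at hc
  nlinarith

lemma KK_neg {h t : ℝ} (ht0 : 0 < t) (ht1 : t < π) (hc : Real.cos t < c0 h) : KK h t < 0 := by
  have h1 := Real.one_le_cosh h
  have hc1 : -1 < Real.cos t := by
    rw [← Real.cos_pi]
    exact Real.cos_lt_cos_of_nonneg_of_le_pi ht0.le le_rfl ht1
  rw [KK_eq ht0 ht1, sub_neg]
  apply Real.log_lt_log (mul_pos (by linarith) (by linarith))
  unfold c0 at hc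
  rw [lt_div_iff₀ (by linarith)] at hc
  nlinarith

/-- the critical point -/
noncomputable def u0 (h : ℝ) : ℝ := Real.arccos (c0 h)

lemma cos_u0 (h : ℝ) : Real.cos (u0 h) = c0 h :=
  Real.cos_arccos (c0_bd h).1.le ((c0_bd h).2.trans zero_le_one)

lemma u0_bd (h : ℝ) : 0 < u0 h ∧ u0 h < π := by
  constructor
  · exact Real.arccos_pos.2 (lt_of_le_of_lt (c0_bd h).2 one_pos)
  · rcases (Real.arccos_le_pi (c0 h)).lt_or_eq with h1 | h1
    · exact h1
    · exfalso
      have h2 := cos_u0 h
      unfold u0 at h2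
      rw [h1, Real.cos_pi] at h2
      linarith [(c0_bd h).1]

lemma VV_lt {h u : ℝ} (hh : 0 ≤ h) (hu0 : 0 ≤ u) (hu1 : u ≤ π) (hne : u ≠ u0 h) :
    VV h u < VV h (u0 h) := by
  have hπ := Real.pi_pos
  obtain ⟨h1, h2⟩ := u0_bd h
  rcases lt_or_gt_of_ne hne with hlt | hgt
  · have e := VV_diff hh u (u0 h)
    have h3 : 0 < ∫ t in u..(u0 h), KK h t := by
      apply intervalIntegral.intervalIntegral_pos_of_pos_on (KK_int hh _ _) _ hlt
      intro t ht
      have ht0 : 0 < t := lt_of_le_of_lt hu0 ht.1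
      apply KK_pos ht0 (ht.2.trans h2)
      rw [← cos_u0]
      exact Real.cos_lt_cos_of_nonneg_of_le_pi ht0.le h2.le ht.2
    have h4 : 0 < (∫ t in u..(u0 h), KK h t) / (2 * π) := by positivity
    linarith
  · have e := VV_diff hh (u0 h) u
    have h3 : 0 < ∫ t in (u0 h)..u, -KK h t := by
      apply intervalIntegral.intervalIntegral_pos_of_pos_on (KK_int hh _ _).neg _ hgt
      intro t ht
      have ht0 : 0 < t := h1.trans ht.1
      have h5 : KK h t < 0 := by
        apply KK_neg ht0 (lt_of_lt_of_le ht.2 hu1)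
        rw [← cos_u0]
        exact Real.cos_lt_cos_of_nonneg_of_le_pi h1.le (ht.2.le.trans hu1) ht.1
      show 0 < -KK h t
      linarith
    rw [intervalIntegral.integral_neg] at h3
    have h4 : (∫ t in (u0 h)..u, KK h t) / (2 * π) < 0 :=
      div_neg_of_neg_of_pos (by linarith) (by positivity)
    linarith

lemma VV_le {h u : ℝ} (hh : 0 ≤ h) (hu0 : 0 ≤ u) (hu1 : u ≤ π) : VV h u ≤ VV h (u0 h) := by
  by_cases h1 : u = u0 h
  · rw [h1]
  · exact (VV_lt hh hu0 hu1 h1).le

end Pool.Agent.TH511.Z361
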