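import Pool.Agent.TH511.Z361.A

/-!
# Z-BND, part B: the maximal value
-/

set_option autoImplicit false

namespace Pool.Agent.TH511.Z361

open Filter Finset Topology MeasureTheory GapVol EvenVol EvenVol.LobIneq
open Pool.Agent.W711.HT
open Pool.Agent.W709.VC (ell Lf RR)
open Pool.Agent.W688.HT
open scoped Real

/-- the Gudermannian function -/
noncomputable def gd (t : ℝ) : ℝ := Real.arctan (Real.sinh t)

noncomputable def DD (s u : ℝ) : ℝ := 2 * Real.arctan (Real.tan (u / 2) * Real.tanh (s / 2))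

lemma den_pos (s : ℝ) {t u : ℝ} (ht0 : 0 ≤ t) (htu : t ≤ u) (hu : u < π) :
    0 < Real.cosh s + Real.cos t := by
  have h1 := Real.one_le_cosh s
  have h2 : -1 < Real.cos t := by
    rw [← Real.cos_pi]
    exact Real.cos_lt_cos_of_nonneg_of_le_pi ht0 le_rfl (htu.trans_lt hu)
  linarith

lemma arctan_deriv (s : ℝ) {t : ℝ} (ht0 : -π < t) (ht : t < π) :
    HasDerivAt (fun t => 2 * Real.arctan (Real.tan (t / 2) * Real.tanh (s / 2)))
      (Real.sinh s / (Real.cosh s + Real.cos t)) t := by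
  have hc : 0 < Real.cos (t / 2) := Real.cos_pos_of_mem_Ioo ⟨by linarith, by linarith⟩
  have h1 : HasDerivAt (fun t : ℝ => t / 2) (1 / 2) t := (hasDerivAt_id t).div_const 2
  have h2 := ((Real.hasDerivAt_tan hc.ne').comp t h1).mul_const (Real.tanh (s / 2))
  have h3 := (h2.arctan).const_mul 2
  refine h3.congr_deriv ?_
  simp only [Function.comp_apply]
  rw [Real.tan_eq_sin_div_cos, Real.tanh_eq_sinh_div_cosh]
  have hC : 0 < Real.cosh (s / 2) := Real.cosh_pos _
  have e1 : Real.sinh s = 2 * Real.sinh (s / 2) * Real.cosh (s / 2) := by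
    rw [← Real.sinh_two_mul]; congr 1; ring
  have e2 : Real.cosh s = Real.cosh (s / 2) ^ 2 + Real.sinh (s / 2) ^ 2 := by
    rw [← Real.cosh_two_mul]; congr 1; ring
  have e3 : Real.cos t = 2 * Real.cos (t / 2) ^ 2 - 1 := by
    rw [← Real.cos_two_mul]; congr 1; ring
  have e4 := Real.cosh_sq (s / 2)
  have e5 := Real.sin_sq_add_cos_sq (t / 2)
  have e6 : Real.sin (t / 2) ^ 2 = 1 - Real.cos (t / 2) ^ 2 := by linarith
  have e7 : Real.sinh (s / 2) ^ 2 = Real.cosh (s / 2) ^ 2 - 1 := by linarith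
  have e8 : Real.cosh s + Real.cos t = 2 * (Real.cos (t / 2) ^ 2 * Real.cosh (s / 2) ^ 2 +
      Real.sin (t / 2) ^ 2 * Real.sinh (s / 2) ^ 2) := by
    rw [e2, e3, e6, e7]; ring
  rw [e1, e8]
  have p1 : 0 < Real.cos (t / 2) ^ 2 * Real.cosh (s / 2) ^ 2 +
      Real.sin (t / 2) ^ 2 * Real.sinh (s / 2) ^ 2 := by positivity
  have p2 : 0 < 1 + (Real.sin (t / 2) / Real.cos (t / 2) *
      (Real.sinh (s / 2) / Real.cosh (s / 2))) ^ 2 := by positivity
  field_simp

lemma integral_DD (s : ℝ) {u : ℝ} (hu0 : 0 ≤ u) (hu : u < π) :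
    ∫ t in (0:ℝ)..u, Real.sinh s / (Real.cosh s + Real.cos t) = DD s u := by
  have h1 : ∫ t in (0:ℝ)..u, Real.sinh s / (Real.cosh s + Real.cos t) =
      2 * Real.arctan (Real.tan (u / 2) * Real.tanh (s / 2)) -
        2 * Real.arctan (Real.tan (0 / 2) * Real.tanh (s / 2)) := by
    apply intervalIntegral.integral_eq_sub_of_hasDerivAt
    · intro t ht
      rw [Set.uIcc_of_le hu0] at ht
      exact arctan_deriv s (by linarith [ht.1, Real.pi_pos]) (by linarith [ht.2])
    · apply ContinuousOn.intervalIntegrable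
      rw [Set.uIcc_of_le hu0]
      intro t ht
      apply ContinuousAt.continuousWithinAt
      apply ContinuousAt.div continuousAt_const (by fun_prop)
      exact (den_pos s ht.1 ht.2 hu).ne'
  rw [h1]
  unfold DD
  simp

lemma Lf_deriv_eta (s : ℝ) {u : ℝ} (hu0 : 0 ≤ u) (hu : u < π) :
    HasDerivAt (fun s => Lf s u) (DD s u) s := by
  have hcu := den_pos 0 hu0 le_rfl hu
  rw [Real.cosh_zero] at hcu
  have h := intervalIntegral.hasDerivAt_integral_of_dominated_loc_of_deriv_le
    (μ := volume) (a := 0) (b := u) (x₀ := s) (F := fun s t => ell s t)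
    (F' := fun s t => Real.sinh s / (Real.cosh s + Real.cos t))
    (bound := fun _ => Real.cosh (|s| + 1) / (1 + Real.cos u)) (s := Metric.ball s 1)
    (Metric.ball_mem_nhds s one_pos) ?_ ?_ ?_ ?_ ?_ ?_
  · rw [integral_DD s hu0 hu] at h
    exact h.2
  · refine Eventually.of_forall fun x => ?_
    apply Measurable.aestronglyMeasurable
    unfold ell
    fun_prop
  · apply ContinuousOn.intervalIntegrable
    rw [Set.uIcc_of_le hu0]
    intro t ht
    apply ContinuousAt.continuousWithinAt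
    unfold ell
    apply ContinuousAt.log (by fun_prop)
    have := den_pos s ht.1 ht.2 hu
    linarith
  · apply Measurable.aestronglyMeasurable
    fun_prop
  · refine Eventually.of_forall fun t ht x hx => ?_
    rw [Set.uIoc_of_le hu0] at ht
    have h1 := den_pos x ht.1.le ht.2 hu
    rw [norm_div, Real.norm_eq_abs, Real.norm_eq_abs, abs_of_pos h1]
    have h2 : |Real.sinh x| ≤ Real.cosh x := by
      rw [abs_le]
      constructor
      · have := Real.cosh_add_sinh x
        have := Real.exp_pos x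
        linarith
      · exact (Real.sinh_lt_cosh x).le
    have h3 : |x| ≤ |s| + 1 := by
      rw [Metric.mem_ball, Real.dist_eq] at hx
      have := abs_sub_abs_le_abs_sub x s
      linarith
    have h4 : Real.cosh x ≤ Real.cosh (|s| + 1) := by
      rw [Real.cosh_le_cosh]
      exact h3.trans (le_abs_self _)
    have h5 : Real.cos u ≤ Real.cos t := Real.cos_le_cos_of_nonneg_of_le_pi ht.1.le hu.le ht.2
    have h6 := Real.one_le_cosh x
    have h7 : 1 + Real.cos u ≤ Real.cosh x + Real.cos t := by linarith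
    exact div_le_div₀ (Real.cosh_pos _).le (h2.trans h4) hcu h7
  · exact intervalIntegrable_const
  · refine Eventually.of_forall fun t ht x _ => ?_
    rw [Set.uIoc_of_le hu0] at ht
    have h1 := den_pos x ht.1.le ht.2 hu
    have h2 : HasDerivAt (fun s : ℝ => 2 * Real.cosh s + 2 * Real.cos t) (2 * Real.sinh x) x :=
      ((Real.hasDerivAt_cosh x).const_mul 2).add_const _
    have h3 := h2.log (by linarith)
    have h4 : Real.sinh x / (Real.cosh x + Real.cos t) =
        2 * Real.sinh x / (2 * Real.cosh x + 2 * Real.cos t) := by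
      rw [← mul_add, mul_div_mul_left _ _ two_ne_zero]
    rw [h4]
    exact h3

lemma tanh_le {a b : ℝ} (hab : a ≤ b) : Real.tanh a ≤ Real.tanh b := by
  rw [Real.tanh_eq_sinh_div_cosh, Real.tanh_eq_sinh_div_cosh,
    div_le_div_iff₀ (Real.cosh_pos _) (Real.cosh_pos _)]
  have h1 : 0 ≤ Real.sinh (b - a) := Real.sinh_nonneg_iff.2 (by linarith)
  rw [Real.sinh_sub] at h1
  linarith

lemma DD_mono {u a b : ℝ} (hu0 : 0 ≤ u) (hu : u < π) (hab : a ≤ b) : DD a u ≤ DD b u := by
  unfold DD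
  have h1 : 0 ≤ Real.tan (u / 2) :=
    Real.tan_nonneg_of_nonneg_of_le_pi_div_two (by linarith) (by linarith)
  have h2 : Real.tanh (a / 2) ≤ Real.tanh (b / 2) := tanh_le (by linarith)
  have h3 := Real.arctan_strictMono.monotone (mul_le_mul_of_nonneg_left h2 h1)
  linarith

lemma tan_u0 (h : ℝ) : Real.tan (u0 h / 2) = Real.cosh (h / 2) := by
  obtain ⟨h1, h2⟩ := u0_bd h
  have hc : 0 < Real.cos (u0 h / 2) := Real.cos_pos_of_mem_Ioo ⟨by linarith, by linarith⟩
  have hs : 0 < Real.sin (u0 h / 2) := Real.sin_pos_of_pos_of_lt_pi (by linarith) (by linarith)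
  have e1 : Real.cos (u0 h) = 2 * Real.cos (u0 h / 2) ^ 2 - 1 := by
    rw [← Real.cos_two_mul]; congr 1; ring
  rw [cos_u0] at e1
  have e2 : Real.cosh h = 2 * Real.cosh (h / 2) ^ 2 - 1 := by
    have := Real.cosh_sq (h / 2)
    have h3 : Real.cosh h = Real.cosh (h / 2) ^ 2 + Real.sinh (h / 2) ^ 2 := by
      rw [← Real.cosh_two_mul]; congr 1; ring
    linarith
  have e3 := Real.sin_sq_add_cos_sq (u0 h / 2)
  have hC : 0 < Real.cosh (h / 2) := Real.cosh_pos _
  have e4 : Real.sin (u0 h / 2) ^ 2 = Real.cosh (h / 2) ^ 2 * Real.cos (u0 h / 2) ^ 2 := by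
    unfold c0 at e1
    rw [e2] at e1
    have hne : (3 + (2 * Real.cosh (h / 2) ^ 2 - 1)) ≠ 0 := by
      have : 0 < Real.cosh (h / 2) ^ 2 := by positivity
      linarith
    rw [div_eq_iff hne] at e1
    have hx : Real.cos (u0 h / 2) ^ 2 * (1 + Real.cosh (h / 2) ^ 2) = 1 := by linarith
    linarith
  rw [Real.tan_eq_sin_div_cos, div_eq_iff hc.ne']
  have e5 : (Real.cosh (h / 2) * Real.cos (u0 h / 2)) ^ 2 = Real.sin (u0 h / 2) ^ 2 := by
    rw [e4]; ring
  exact ((pow_left_inj₀ hs.le (by positivity) two_ne_zero).1 e5.symm)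

lemma DD_u0 (h : ℝ) : DD h (u0 h) = 2 * gd (h / 2) := by
  unfold DD gd
  rw [tan_u0, Real.tanh_eq_sinh_div_cosh, mul_div_cancel₀ _ (Real.cosh_pos _).ne']

/-- the maximal value -/
noncomputable def WW (h : ℝ) : ℝ := VV h (u0 h)

lemma WW_sand {a b : ℝ} (ha : 0 ≤ a) (hab : a < b) :
    (b - a) * (gd (a / 2) / π) ≤ WW b - WW a ∧ WW b - WW a ≤ (b - a) * (gd (b / 2) / π) := by
  have hπ := Real.pi_pos
  have hb : 0 ≤ b := ha.trans hab.le
  have key : ∀ u : ℝ, 0 ≤ u → u < π → ∃ ξ ∈ Set.Ioo a b, Lf b u - Lf a u = (b - a) * DD ξ u := by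
    intro u hu0 hu
    obtain ⟨ξ, h1, h2⟩ := exists_hasDerivAt_eq_slope (fun s => Lf s u) (fun s => DD s u) hab
      (fun s _ => (Lf_deriv_eta s hu0 hu).continuousAt.continuousWithinAt)
      (fun s _ => Lf_deriv_eta s hu0 hu)
    refine ⟨ξ, h1, ?_⟩
    rw [h2]
    have : b - a ≠ 0 := by linarith
    field_simp
  constructor
  · obtain ⟨h1, h2⟩ := u0_bd a
    obtain ⟨ξ, hξ, e⟩ := key (u0 a) h1.le h2
    have h3 := VV_le hb h1.le h2.le
    have h4 : VV b (u0 a) - VV a (u0 a) = (Lf b (u0 a) - Lf a (u0 a)) / (2 * π) := by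
      unfold VV; ring
    have h5 := DD_mono h1.le h2 hξ.1.le
    rw [DD_u0] at h5
    have h6 : (b - a) * (gd (a / 2) / π) = ((b - a) * (2 * gd (a / 2))) / (2 * π) := by
      field_simp
    unfold WW
    rw [h6]
    have h7 : ((b - a) * (2 * gd (a / 2))) / (2 * π) ≤ ((b - a) * DD ξ (u0 a)) / (2 * π) := by
      apply div_le_div_of_nonneg_right _ (by positivity)
      exact mul_le_mul_of_nonneg_left h5 (by linarith)
    rw [← e] at h7
    linarith
  · obtain ⟨h1, h2⟩ := u0_bd b
    obtain ⟨ξ, hξ, e⟩ := key (u0 b) h1.le h2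
    have h3 := VV_le ha h1.le h2.le
    have h4 : VV b (u0 b) - VV a (u0 b) = (Lf b (u0 b) - Lf a (u0 b)) / (2 * π) := by
      unfold VV; ring
    have h5 := DD_mono h1.le h2 hξ.2.le
    rw [DD_u0] at h5
    have h6 : (b - a) * (gd (b / 2) / π) = ((b - a) * (2 * gd (b / 2))) / (2 * π) := by
      field_simp
    unfold WW
    rw [h6]
    have h7 : ((b - a) * DD ξ (u0 b)) / (2 * π) ≤ ((b - a) * (2 * gd (b / 2))) / (2 * π) := by
      apply div_le_div_of_nonneg_right _ (by positivity)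
      exact mul_le_mul_of_nonneg_left h5 (by linarith)
    rw [← e] at h7
    linarith

lemma gd_cont : Continuous gd := by
  unfold gd
  exact Real.continuous_arctan.comp Real.continuous_sinh

lemma gd_mono : Monotone gd := fun _ _ hab =>
  Real.arctan_strictMono.monotone (Real.sinh_le_sinh.2 hab)

lemma gd_nonneg {t : ℝ} (ht : 0 ≤ t) : 0 ≤ gd t := by
  unfold gd
  rw [Real.arctan_nonneg]
  exact Real.sinh_nonneg_iff.2 ht

lemma WW_abs {a b : ℝ} (ha : 0 ≤ a) (hb : 0 ≤ b) :
    |WW b - WW a - (b - a) * (gd (a / 2) / π)| ≤ |b - a| * |gd (b / 2) / π - gd (a / 2) / π| := by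
  rcases lt_trichotomy a b with h | h | h
  · obtain ⟨h1, h2⟩ := WW_sand ha h
    rw [abs_of_nonneg (by linarith), ← abs_mul]
    refine le_trans ?_ (le_abs_self _)
    rw [mul_sub]
    linarith
  · subst h
    simp
  · obtain ⟨h1, h2⟩ := WW_sand hb h
    rw [← abs_mul]
    have e : WW b - WW a - (b - a) * (gd (a / 2) / π) =
        (a - b) * (gd (a / 2) / π) - (WW a - WW b) := by ring
    rw [e, abs_of_nonneg (by linarith)]
    refine le_trans ?_ (le_abs_self _)
    have e2 : (b - a) * (gd (b / 2) / π - gd (a / 2) / π) =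
        (a - b) * (gd (a / 2) / π) - (a - b) * (gd (b / 2) / π) := by ring
    rw [e2]
    linarith

lemma WW_deriv {a : ℝ} (ha : 0 < a) : HasDerivAt WW (gd (a / 2) / π) a := by
  rw [hasDerivAt_iff_isLittleO, Asymptotics.isLittleO_iff]
  intro c hc
  have hcont : ContinuousAt (fun b => |gd (b / 2) / π - gd (a / 2) / π|) a := by
    have := gd_cont
    fun_prop
  have h1 : ∀ᶠ b in 𝓝 a, |gd (b / 2) / π - gd (a / 2) / π| < c := by
    apply hcont.eventually_lt continuousAt_const
    simpa using hc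
  filter_upwards [h1, lt_mem_nhds ha] with b hb hb0
  have h2 := WW_abs ha.le hb0.le
  rw [Real.norm_eq_abs, Real.norm_eq_abs, smul_eq_mul]
  refine h2.trans ?_
  rw [mul_comm c]
  exact mul_le_mul_of_nonneg_left hb.le (abs_nonneg _)

lemma WW_contOn (b : ℝ) : ContinuousOn WW (Set.Icc 0 b) := by
  intro a ha
  rcases ha.1.eq_or_lt with h0 | h0
  · subst h0
    have hg := gd_cont
    rw [ContinuousWithinAt, tendsto_iff_norm_sub_tendsto_zero]
    have hlim : Tendsto (fun b => |b - 0| * |gd (b / 2) / π - gd (0 / 2) / π| +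
        |(b - 0) * (gd (0 / 2) / π)|) (𝓝[Set.Icc 0 b] 0) (𝓝 0) := by
      have : Continuous (fun b => |b - 0| * |gd (b / 2) / π - gd (0 / 2) / π| +
        |(b - 0) * (gd (0 / 2) / π)|) := by fun_prop
      have h2 := this.tendsto 0
      simp only [sub_self, abs_zero, zero_mul, add_zero] at h2
      exact h2.mono_left nhdsWithin_le_nhds
    refine squeeze_zero' (Eventually.of_forall fun _ => norm_nonneg _) ?_ hlim
    filter_upwards [self_mem_nhdsWithin] with x hx
    have h2 := WW_abs le_rfl hx.1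
    rw [Real.norm_eq_abs]
    have h3 := abs_add_le (WW x - WW 0 - (x - 0) * (gd (0 / 2) / π)) ((x - 0) * (gd (0 / 2) / π))
    rw [sub_add_cancel] at h3
    linarith
  · exact (WW_deriv h0).continuousAt.continuousWithinAt

lemma WW_zero : WW 0 = 2 * bet := by
  unfold WW VV u0 c0
  rw [Real.cosh_zero]
  have e : Real.arccos ((1 - 1) / (3 + 1)) = π / 2 := by
    rw [sub_self, zero_div, Real.arccos_zero]
  rw [e, Lf_zero, bet_eq]
  have e2 : π / 2 + π / 2 / 2 = 3 * π / 4 := by ring
  have e3 : π / 2 / 2 = π / 4 := by ring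
  rw [e2, e3, lob_34]
  ring

lemma WW_eq {h : ℝ} (hh : 0 ≤ h) : WW h = 2 * bet + 2 / π * ∫ t in (0:ℝ)..(h / 2), gd t := by
  have h1 : ∫ t in (0:ℝ)..h, gd (t / 2) / π = WW h - WW 0 := by
    apply intervalIntegral.integral_eq_sub_of_hasDerivAt_of_le hh (WW_contOn h)
    · intro x hx
      exact WW_deriv hx.1
    · have hg := gd_cont
      exact Continuous.intervalIntegrable (by fun_prop) _ _
  have h2 : ∫ t in (0:ℝ)..h, gd (t / 2) / π = 2 / π * ∫ t in (0:ℝ)..(h / 2), gd t := by
    have e : (fun t => gd (t / 2) / π) = fun t => (1 / π) * gd (t / 2) := by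
      funext t; ring
    rw [e, intervalIntegral.integral_const_mul,
      intervalIntegral.integral_comp_div gd (two_ne_zero (α := ℝ)), zero_div, smul_eq_mul]
    ring
  rw [← WW_zero]
  linarith

end Pool.Agent.TH511.Z361
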