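import Pool.Agent.TH511.Z361.B

/-!
# Z-BND, part C: the gap
-/

set_option autoImplicit false

namespace Pool.Agent.TH511.Z361

open Filter Finset Topology MeasureTheory GapVol EvenVol EvenVol.LobIneq
open Pool.Agent.W711.HT
open Pool.Agent.W709.VC (ell Lf RR)
open Pool.Agent.W688.HT
open scoped Real

/-- the limit of the exponent -/
noncomputable def GG (h u x x' : ℝ) : ℝ := PP 0 u x + PP h u x' + 4 / π * lob (u / 2)

lemma GG_cont {h : ℝ} (hh : 0 ≤ h) :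
    Continuous (fun p : ℝ × ℝ × ℝ => GG h p.1 p.2.1 p.2.2) := by
  unfold GG
  have h1 : Continuous (fun p : ℝ × ℝ × ℝ => PP 0 p.1 p.2.1) :=
    (PP_cont le_rfl).comp (continuous_fst.prodMk (continuous_fst.comp continuous_snd))
  have h2 : Continuous (fun p : ℝ × ℝ × ℝ => PP h p.1 p.2.2) :=
    (PP_cont hh).comp (continuous_fst.prodMk (continuous_snd.comp continuous_snd))
  have h3 : Continuous (fun p : ℝ × ℝ × ℝ => lob (p.1 / 2)) :=
    lob_cont.comp (continuous_fst.div_const 2)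
  exact (h1.add h2).add (h3.const_mul _)

lemma GG_zero (h u : ℝ) : GG h u 0 0 = VV h u := by
  unfold GG VV
  have hπ := Real.pi_pos
  rw [PP_zero, PP_zero]
  field_simp
  ring

lemma GG_le {h u x x' : ℝ} (hh : 0 ≤ h) (hu0 : 0 ≤ u) (hu1 : u ≤ π) (hx : |x| ≤ π)
    (hx' : |x'| ≤ π) : GG h u x x' ≤ VV h u -
      Real.sin u / (π ^ 3 * (Real.cosh h + 1)) * (x ^ 2 + x' ^ 2) := by
  have hπ := Real.pi_pos
  have hsu := Real.sin_nonneg_of_nonneg_of_le_pi hu0 hu1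
  have hch := Real.one_le_cosh h
  have h1 := PP_drop (h := 0) le_rfl hu0 hu1 hx
  have h2 := PP_drop hh hu0 hu1 hx'
  rw [Real.cosh_zero] at h1
  have h3 : Real.sin u * x ^ 2 / (π ^ 3 * (Real.cosh h + 1)) ≤
      Real.sin u * x ^ 2 / (π ^ 3 * (1 + 1)) := by
    apply div_le_div_of_nonneg_left (by positivity) (by positivity)
    exact mul_le_mul_of_nonneg_left (by linarith) (by positivity)
  have h4 : Real.sin u / (π ^ 3 * (Real.cosh h + 1)) * (x ^ 2 + x' ^ 2) =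
      Real.sin u * x ^ 2 / (π ^ 3 * (Real.cosh h + 1)) +
        Real.sin u * x' ^ 2 / (π ^ 3 * (Real.cosh h + 1)) := by ring
  rw [h4, ← GG_zero]
  unfold GG
  linarith

lemma GG_le_VV {h u x x' : ℝ} (hh : 0 ≤ h) (hu0 : 0 ≤ u) (hu1 : u ≤ π) (hx : |x| ≤ π)
    (hx' : |x'| ≤ π) : GG h u x x' ≤ VV h u := by
  have h1 := GG_le hh hu0 hu1 hx hx'
  have hsu := Real.sin_nonneg_of_nonneg_of_le_pi hu0 hu1
  have hch := Real.one_le_cosh h
  have hπ := Real.pi_pos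
  have h2 : 0 ≤ Real.sin u / (π ^ 3 * (Real.cosh h + 1)) * (x ^ 2 + x' ^ 2) := by positivity
  linarith

/-- the box -/
def Bx : Set (ℝ × ℝ × ℝ) := Set.Icc 0 (2 * π) ×ˢ Set.Icc (-π) π ×ˢ Set.Icc (-π) π

lemma Bx_compact : IsCompact Bx := isCompact_Icc.prod (isCompact_Icc.prod isCompact_Icc)

lemma gapG {h : ℝ} (hh : 0 ≤ h) (C : Set (ℝ × ℝ × ℝ)) (hC : IsClosed C)
    (hlt : ∀ p ∈ C, p ∈ Bx → GG h p.1 p.2.1 p.2.2 < WW h) :
    ∃ κ : ℝ, 0 < κ ∧ ∀ p ∈ C, p ∈ Bx → GG h p.1 p.2.1 p.2.2 ≤ WW h - κ := by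
  have hKc : IsCompact (Bx ∩ C) := Bx_compact.inter_right hC
  rcases (Bx ∩ C).eq_empty_or_nonempty with h0 | h0
  · refine ⟨1, one_pos, fun p hp hp' => ?_⟩
    have : p ∈ Bx ∩ C := ⟨hp', hp⟩
    rw [h0] at this
    exact absurd this (Set.notMem_empty _)
  · obtain ⟨p, hp, hmax⟩ := hKc.exists_isMaxOn h0 (GG_cont hh).continuousOn
    have h1 := hlt p hp.2 hp.1
    refine ⟨WW h - GG h p.1 p.2.1 p.2.2, by linarith, fun q hq hq' => ?_⟩
    have h2 : GG h q.1 q.2.1 q.2.2 ≤ GG h p.1 p.2.1 p.2.2 := hmax (show q ∈ Bx ∩ C from ⟨hq', hq⟩)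
    linarith

/-- the choice of `ε` -/
lemma choose_eps {h : ℝ} (hh : 0 ≤ h) : ∃ ε : ℝ, 0 < ε ∧ ε < 1 / 4 ∧ ∀ u x x' : ℝ, 0 ≤ u →
    u ≤ π + 2 * π * ε → u ≠ u0 h → |x| ≤ π → |x'| ≤ π → GG h u x x' < WW h := by
  have hπ := Real.pi_pos
  obtain ⟨hu1, hu2⟩ := u0_bd h
  set S : Set (ℝ × ℝ × ℝ) := Bx ∩ {p | π ≤ p.1 ∧ WW h ≤ GG h p.1 p.2.1 p.2.2} with hS
  have hcl : IsClosed {p : ℝ × ℝ × ℝ | π ≤ p.1 ∧ WW h ≤ GG h p.1 p.2.1 p.2.2} :=
    (isClosed_le continuous_const continuous_fst).inter (isClosed_le continuous_const (GG_cont hh))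
  have hSc : IsCompact S := Bx_compact.inter_right hcl
  have key : ∃ ε : ℝ, 0 < ε ∧ ε < 1 / 4 ∧ ∀ p ∈ S, π + 2 * π * ε < p.1 := by
    rcases S.eq_empty_or_nonempty with h0 | h0
    · refine ⟨1 / 8, by norm_num, by norm_num, fun p hp => ?_⟩
      rw [h0] at hp
      exact absurd hp (Set.notMem_empty _)
    · obtain ⟨q, hq, hmin⟩ := hSc.exists_isMinOn h0 continuous_fst.continuousOn
      have hq1 : π < q.1 := by
        rcases hq.2.1.eq_or_lt with h1 | h1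
        · exfalso
          have h2 := GG_le_VV hh hπ.le le_rfl (abs_le.2 hq.1.2.1) (abs_le.2 hq.1.2.2)
          have h3 := VV_lt hh hπ.le le_rfl hu2.ne'
          have h4 := hq.2.2
          rw [← h1] at h4
          unfold WW at h4
          linarith
        · exact h1
      refine ⟨min (1 / 8) ((q.1 - π) / (4 * π)), by
          have : 0 < (q.1 - π) / (4 * π) := by apply div_pos <;> linarith
          positivity, lt_of_le_of_lt (min_le_left _ _) (by norm_num), fun p hp => ?_⟩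
      have h1 : q.1 ≤ p.1 := hmin hp
      have h2 : min (1 / 8) ((q.1 - π) / (4 * π)) ≤ (q.1 - π) / (4 * π) := min_le_right _ _
      have h3 : 2 * π * min (1 / 8) ((q.1 - π) / (4 * π)) ≤ 2 * π * ((q.1 - π) / (4 * π)) :=
        mul_le_mul_of_nonneg_left h2 (by positivity)
      have h4 : 2 * π * ((q.1 - π) / (4 * π)) = (q.1 - π) / 2 := by field_simp; ring
      rw [h4] at h3
      linarith
  obtain ⟨ε, h1, h2, h3⟩ := key
  refine ⟨ε, h1, h2, fun u x x' hu hu' hne hx hx' => ?_⟩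
  rcases le_or_gt u π with h4 | h4
  · exact lt_of_le_of_lt (GG_le_VV hh hu h4 hx hx') (VV_lt hh hu h4 hne)
  · by_contra h5
    rw [not_lt] at h5
    have h6 : (u, x, x') ∈ S := by
      refine ⟨⟨⟨hu, ?_⟩, abs_le.1 hx, abs_le.1 hx'⟩, h4.le, h5⟩
      have : 2 * π * ε ≤ 2 * π * (1 / 4) := mul_le_mul_of_nonneg_left h2.le (by positivity)
      show u ≤ 2 * π
      linarith
    have h7 := h3 _ h6
    simp only at h7
    linarith

lemma gap_far {h ε : ℝ} (hh : 0 ≤ h) (hε1 : ε < 1 / 4)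
    (H : ∀ u x x' : ℝ, 0 ≤ u → u ≤ π + 2 * π * ε → u ≠ u0 h → |x| ≤ π → |x'| ≤ π →
      GG h u x x' < WW h) {r : ℝ} (hr : 0 < r) : ∃ κ : ℝ, 0 < κ ∧ ∀ u x x' : ℝ, 0 ≤ u →
      u ≤ π + 2 * π * ε → r ≤ |u - u0 h| → |x| ≤ π → |x'| ≤ π → GG h u x x' ≤ WW h - κ := by
  have hπ := Real.pi_pos
  obtain ⟨κ, h1, h2⟩ := gapG hh {p | p.1 ≤ π + 2 * π * ε ∧ r ≤ |p.1 - u0 h|}
    ((isClosed_le continuous_fst continuous_const).inter
      (isClosed_le continuous_const ((continuous_fst.sub continuous_const).abs))) (by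
      intro p hp hp'
      refine H _ _ _ hp'.1.1 hp.1 ?_ (abs_le.2 hp'.2.1) (abs_le.2 hp'.2.2)
      intro h3
      have h4 := hp.2
      rw [h3, sub_self, abs_zero] at h4
      linarith)
  refine ⟨κ, h1, fun u x x' hu hu' hur hx hx' => ?_⟩
  refine h2 (u, x, x') ⟨hu', hur⟩ ⟨⟨hu, ?_⟩, abs_le.1 hx, abs_le.1 hx'⟩
  have : 2 * π * ε ≤ 2 * π * (1 / 4) := mul_le_mul_of_nonneg_left hε1.le (by positivity)
  show u ≤ 2 * π
  linarith

lemma quad {h ε : ℝ} (hh : 0 ≤ h) (hε1 : ε < 1 / 4)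
    (H : ∀ u x x' : ℝ, 0 ≤ u → u ≤ π + 2 * π * ε → u ≠ u0 h → |x| ≤ π → |x'| ≤ π →
      GG h u x x' < WW h) : ∃ c : ℝ, 0 < c ∧ ∀ u x x' : ℝ, 0 ≤ u →
      u ≤ π + 2 * π * ε → |x| ≤ π → |x'| ≤ π →
      GG h u x x' ≤ WW h - c * min |x| 1 ^ 2 - c * min |x'| 1 ^ 2 := by
  have hπ := Real.pi_pos
  obtain ⟨hu1, hu2⟩ := u0_bd h
  have hch := Real.one_le_cosh h
  set a : ℝ := u0 h / 2 with ha
  set b : ℝ := (u0 h + π) / 2 with hb
  set r : ℝ := min (u0 h / 2) ((π - u0 h) / 2) with hr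
  have hr0 : 0 < r := lt_min (by linarith) (by linarith)
  have hra : r ≤ u0 h / 2 := min_le_left _ _
  have hrb : r ≤ (π - u0 h) / 2 := min_le_right _ _
  obtain ⟨κ, hκ, h1⟩ := gap_far hh hε1 H hr0
  set σ : ℝ := min (Real.sin a) (Real.sin b) with hσ
  have hσ0 : 0 < σ := lt_min (Real.sin_pos_of_pos_of_lt_pi (by linarith) (by linarith))
    (Real.sin_pos_of_pos_of_lt_pi (by linarith) (by linarith))
  have hsin : ∀ u : ℝ, a ≤ u → u ≤ b → σ ≤ Real.sin u := by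
    intro u hau hub
    exact strictConcaveOn_sin_Icc.concaveOn.min_le_of_mem_Icc
      ⟨by linarith, by linarith⟩ ⟨by linarith, by linarith⟩ ⟨hau, hub⟩
  set c1 : ℝ := σ / (π ^ 3 * (Real.cosh h + 1)) with hc1
  have hc1p : 0 < c1 := by positivity
  refine ⟨min c1 (κ / 2), by positivity, fun u x x' hu0 hu' hx hx' => ?_⟩
  have hm1 : 0 ≤ min |x| 1 := by positivity
  have hm2 : 0 ≤ min |x'| 1 := by positivity
  have hm3 : min |x| 1 ^ 2 ≤ 1 := pow_le_one₀ hm1 (min_le_right _ _)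
  have hm4 : min |x'| 1 ^ 2 ≤ 1 := pow_le_one₀ hm2 (min_le_right _ _)
  have hm5 : min |x| 1 ^ 2 ≤ x ^ 2 := by
    rw [← sq_abs x]
    exact pow_le_pow_left₀ hm1 (min_le_left _ _) 2
  have hm6 : min |x'| 1 ^ 2 ≤ x' ^ 2 := by
    rw [← sq_abs x']
    exact pow_le_pow_left₀ hm2 (min_le_left _ _) 2
  have hcp : 0 < min c1 (κ / 2) := by positivity
  rcases le_or_gt r |u - u0 h| with h2 | h2
  · have h3 := h1 u x x' hu0 hu' h2 hx hx'
    have h4 : min c1 (κ / 2) ≤ κ / 2 := min_le_right _ _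
    have h5 : min c1 (κ / 2) * min |x| 1 ^ 2 ≤ κ / 2 * 1 :=
      mul_le_mul h4 hm3 (by positivity) (by positivity)
    have h6 : min c1 (κ / 2) * min |x'| 1 ^ 2 ≤ κ / 2 * 1 :=
      mul_le_mul h4 hm4 (by positivity) (by positivity)
    linarith
  · have h2' := abs_lt.1 h2
    have h3 := GG_le hh hu0 (by linarith) hx hx'
    have h4 := VV_le hh hu0 (by linarith : u ≤ π)
    have h5 := hsin u (by linarith) (by linarith)
    have h6 : min c1 (κ / 2) ≤ Real.sin u / (π ^ 3 * (Real.cosh h + 1)) := by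
      refine (min_le_left _ _).trans ?_
      rw [hc1]
      exact div_le_div_of_nonneg_right h5 (by positivity)
    have h7 : min c1 (κ / 2) * (min |x| 1 ^ 2 + min |x'| 1 ^ 2) ≤
        Real.sin u / (π ^ 3 * (Real.cosh h + 1)) * (x ^ 2 + x' ^ 2) :=
      mul_le_mul h6 (by linarith) (by positivity) (hcp.le.trans h6)
    unfold WW
    linarith

end Pool.Agent.TH511.Z361
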