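import Pool.Agent.TH511.Z361.C

/-!
# Z-BND, part D: the finite products
-/

set_option autoImplicit false

namespace Pool.Agent.TH511.Z361

open Filter Finset Topology MeasureTheory GapVol EvenVol EvenVol.LobIneq
open Pool.Agent.W711.HT
open Pool.Agent.W709.VC (ell Lf RR)
open Pool.Agent.W688.HT
open scoped Real

lemma bb_PP (δ x : ℝ) : bb δ x = PP 0 (2 * π * δ) x + 2 / π * lob (π * δ) := by
  have hπ := Real.pi_pos
  rw [bb_eq]
  unfold PP
  rw [Lf_zero, Lf_zero]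
  have e3 : lob (π / 2 + (2 * π * δ - x) / 2) = -lob ((x / 2 + π / 2) - π * δ) := by
    rw [← Pool.Agent.H811R3.EvenVolR.lob_refl]
    congr 1
    ring
  have e4 : lob (π / 2 + (-(2 * π * δ) - x) / 2) = -lob ((x / 2 + π / 2) + π * δ) := by
    rw [← Pool.Agent.H811R3.EvenVolR.lob_refl]
    congr 1
    ring
  rw [e3, e4]
  field_simp
  ring

lemma Lf_near' {η : ℝ} (hη : 0 < η) {ε : ℝ} (hε : 0 < ε) : ∃ τ : ℝ, 0 < τ ∧ τ ≤ η / 2 ∧
    ∀ y : ℝ, |y - η| ≤ τ → ∀ t : ℝ, |t| ≤ 3 * π → |Lf y t - Lf η t| ≤ ε := by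
  have hπ := Real.pi_pos
  set K : ℝ := Real.cosh (η / 2) - 1 with hK
  have hK0 : 0 < K := by
    have := Real.one_lt_cosh.2 (by positivity : η / 2 ≠ 0)
    rw [hK]; linarith
  have hc : ContinuousAt Real.cosh η := Real.continuous_cosh.continuousAt
  rw [Metric.continuousAt_iff] at hc
  obtain ⟨δ, hδ, h1⟩ := hc (ε * K / (3 * π)) (by positivity)
  refine ⟨min (δ / 2) (η / 2), by positivity, min_le_right _ _, fun y hy t ht => ?_⟩
  have hy1 : |y - η| ≤ δ / 2 := hy.trans (min_le_left _ _)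
  have hy2 : |y - η| ≤ η / 2 := hy.trans (min_le_right _ _)
  have hy3 := abs_le.1 hy2
  have hy4 : η / 2 ≤ y := by linarith
  have hy0 : 0 < y := by linarith
  have h2 := h1 (x := y) (by rw [Real.dist_eq]; linarith)
  rw [Real.dist_eq] at h2
  have h3 : Lf y t - Lf η t = ∫ s in (0:ℝ)..t, (ell y s - ell η s) := by
    unfold Lf
    rw [intervalIntegral.integral_sub (ell_intg hy0.le 0 t) (ell_intg hη.le 0 t)]
  rw [h3, ← Real.norm_eq_abs]
  have h4 : ‖∫ s in (0:ℝ)..t, (ell y s - ell η s)‖ ≤ (ε / (3 * π)) * |t - 0| := by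
    apply intervalIntegral.norm_integral_le_of_norm_le_const
    intro s _
    rw [Real.norm_eq_abs]
    have hh : 0 < η / 2 := by positivity
    have h5 := Pool.Agent.W440.VC.ell_low (τ := s) hh hy4
    have h6 := Pool.Agent.W440.VC.ell_low (τ := s) hh (by linarith : η / 2 ≤ η)
    have h7 := Pool.Agent.W440.VC.log_lip (by linarith : 0 < 2 * (Real.cosh (η / 2) - 1)) h5 h6
    unfold ell
    refine h7.trans ?_
    have e : 2 * Real.cosh y + 2 * Real.cos s - (2 * Real.cosh η + 2 * Real.cos s) =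
        2 * (Real.cosh y - Real.cosh η) := by ring
    rw [e, abs_mul, abs_two, mul_div_mul_left _ _ two_ne_zero, ← hK, div_le_iff₀ hK0]
    have e2 : ε / (3 * π) * K = ε * K / (3 * π) := by ring
    rw [e2]
    exact h2.le
  refine h4.trans ?_
  rw [sub_zero]
  have e : ε / (3 * π) * (3 * π) = ε := by field_simp
  calc ε / (3 * π) * |t| ≤ ε / (3 * π) * (3 * π) := by gcongr
    _ = ε := e

lemma fin2 {η : ℝ} (hη : 0 < η) {ε : ℝ} (hε : 0 < ε) : ∃ τ : ℝ, 0 < τ ∧
    ∀ᶠ N : ℕ in atTop, ∀ d < N, ∀ x y : ℝ, |x| ≤ π → |y - η| ≤ τ →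
      ‖Rp N d (x + y * Complex.I)‖ ≤ Sd N d ^ 2 * Real.exp (N * (PP η (2 * π * (d / N)) x +
        2 / π * lob (π * (d / N)) + ε)) := by
  have hπ := Real.pi_pos
  have hπ3 := Real.pi_gt_three
  obtain ⟨τ, hτ, hτ2, hL⟩ := Lf_near' hη hε
  obtain ⟨C, hC⟩ := Pool.Agent.W440.VC.rs (η / 2) (by positivity)
  refine ⟨τ, hτ, ?_⟩
  have hCN : ∀ᶠ N : ℕ in atTop, C ≤ ε / 4 * N := by
    have h1 : Tendsto (fun N : ℕ => ε / 4 * (N : ℝ)) atTop atTop :=
      Tendsto.const_mul_atTop (by positivity) tendsto_natCast_atTop_atTop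
    exact h1.eventually_ge_atTop C
  filter_upwards [Pool.Agent.H811R3.EvenVolR.taskR (ε / 8) (by positivity), hCN] with N hR hCN
  intro d hd x y hx hy
  have hN : 0 < N := by omega
  have hNR : (0 : ℝ) < N := by exact_mod_cast hN
  have hdN : (d : ℝ) ≤ N := by exact_mod_cast hd.le
  have hS := Sd_pos hd
  by_cases h0 : ‖Rp N d (x + y * Complex.I)‖ = 0
  · rw [h0]; positivity
  have hp : 0 < ‖Rp N d (x + y * Complex.I)‖ := lt_of_le_of_ne (norm_nonneg _) (Ne.symm h0)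
  have hyb := abs_le.1 (hy.trans hτ2)
  have h1 := (abs_le.1 (hC N d hN hd.le (-x) y (by linarith))).2
  rw [← Rp_RR] at h1
  have hx' := abs_le.1 hx
  set a : ℝ := π * (d / N) with ha
  have ha0 : 0 ≤ a := by positivity
  have hdn1 : (d : ℝ) / N ≤ 1 := by rw [div_le_one hNR]; exact hdN
  have ha1 : a ≤ π := by
    rw [ha]
    calc π * ((d : ℝ) / N) ≤ π * 1 := by gcongr
      _ = π := mul_one _
  have e0 : 2 * π * ((d : ℝ) / N) = 2 * a := by rw [ha]; ring
  have e1 : -x + 2 * π * d / N = 2 * a - x := by rw [ha]; ring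
  have e2 : -x - 2 * π * d / N = -(2 * a) - x := by rw [ha]; ring
  rw [e1, e2] at h1
  rw [e0]
  have h2 := (abs_le.1 (hL y hy (2 * a - x) (by rw [abs_le]; constructor <;> linarith))).2
  have h3 := (abs_le.1 (hL y hy (-(2 * a) - x) (by rw [abs_le]; constructor <;> linarith))).1
  have h4 := (abs_le.1 (hR d (by omega))).1
  have e3 : π * (d : ℝ) / N = a := by rw [ha]; ring
  rw [e3, ← log_Sd hd] at h4
  have h5 : N / (4 * π) * (Lf y (2 * a - x) - Lf y (-(2 * a) - x)) ≤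
      N * PP η (2 * a) x + ε / 6 * N := by
    have h6 : Lf y (2 * a - x) - Lf y (-(2 * a) - x) ≤
        (Lf η (2 * a - x) - Lf η (-(2 * a) - x)) + 2 * ε := by linarith
    have h7 : N / (4 * π) * (Lf y (2 * a - x) - Lf y (-(2 * a) - x)) ≤ N / (4 * π) *
        ((Lf η (2 * a - x) - Lf η (-(2 * a) - x)) + 2 * ε) := by gcongr
    refine h7.trans ?_
    have e5 : N / (4 * π) * ((Lf η (2 * a - x) - Lf η (-(2 * a) - x)) + 2 * ε) =
        N * PP η (2 * a) x + ε / (2 * π) * N := by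
      unfold PP
      field_simp
      ring
    rw [e5]
    have h8 : ε / (2 * π) ≤ ε / 6 := by
      apply div_le_div_of_nonneg_left hε.le (by norm_num)
      linarith
    have h9 : ε / (2 * π) * N ≤ ε / 6 * N := by gcongr
    linarith
  have h6 : Real.log ‖Rp N d (x + y * Complex.I)‖ ≤
      2 * Real.log (Sd N d) + N * (PP η (2 * a) x + 2 / π * lob a + ε) := by
    have e6 : N * (PP η (2 * a) x + 2 / π * lob a + ε) =
        N * PP η (2 * a) x + 2 * (N / π * lob a) + ε * N := by ring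
    rw [e6]
    have h10 : 0 < ε * N := by positivity
    linarith
  calc ‖Rp N d (x + y * Complex.I)‖ = Real.exp (Real.log ‖Rp N d (x + y * Complex.I)‖) :=
        (Real.exp_log hp).symm
    _ ≤ Real.exp (2 * Real.log (Sd N d) + N * (PP η (2 * a) x + 2 / π * lob a + ε)) :=
        Real.exp_le_exp.2 h6
    _ = Sd N d ^ 2 * Real.exp (N * (PP η (2 * a) x + 2 / π * lob a + ε)) := by
        rw [Real.exp_add]
        congr 1
        rw [two_mul, Real.exp_add, Real.exp_log hS]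
        ring

lemma fin {η : ℝ} (hη : 0 < η) {ε : ℝ} (hε : 0 < ε) : ∃ τ : ℝ, 0 < τ ∧
    ∀ᶠ N : ℕ in atTop, ∀ d < N, ∀ x y x' y' : ℝ, |x| ≤ π → |y| ≤ τ → |x'| ≤ π → |y' - η| ≤ τ →
      ‖Rp N d (x + y * Complex.I)‖ * ‖Rp N d (x' + y' * Complex.I)‖ ≤
        Sd N d ^ 4 * Real.exp (N * (GG η (2 * π * (d / N)) x x' + ε)) := by
  obtain ⟨τ1, h1, H1⟩ := b0 (ε / 2) (by positivity)
  obtain ⟨τ2, h2, H2⟩ := fin2 hη (ε := ε / 2) (by positivity)
  refine ⟨min τ1 τ2, lt_min h1 h2, ?_⟩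
  filter_upwards [H1, H2] with N H1 H2
  intro d hd x y x' y' hx hy hx' hy'
  have a1 := H1 d hd x y hx (hy.trans (min_le_left _ _))
  have a2 := H2 d hd x' y' hx' (hy'.trans (min_le_right _ _))
  have hS := Sd_pos hd
  refine (mul_le_mul a1 a2 (norm_nonneg _) (by positivity)).trans (le_of_eq ?_)
  rw [bb_PP]
  have e1 : Sd N d ^ 2 * Real.exp (N * (PP 0 (2 * π * (d / N)) x + 2 / π * lob (π * (d / N)) +
      ε / 2)) * (Sd N d ^ 2 * Real.exp (N * (PP η (2 * π * (d / N)) x' +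
        2 / π * lob (π * (d / N)) + ε / 2))) = Sd N d ^ 4 *
      (Real.exp (N * (PP 0 (2 * π * (d / N)) x + 2 / π * lob (π * (d / N)) + ε / 2)) *
        Real.exp (N * (PP η (2 * π * (d / N)) x' + 2 / π * lob (π * (d / N)) + ε / 2))) := by
    ring
  rw [e1, ← Real.exp_add]
  congr 2
  unfold GG
  have e2 : 2 * π * ((d : ℝ) / N) / 2 = π * (d / N) := by ring
  rw [e2]
  ring

end Pool.Agent.TH511.Z361
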